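import Mathlib

/-! Yorioka ideals on the Cantor space `ℕ → Bool`, additivity, cofinality, localization. -/

namespace Pool.Agent.MP_9fd5aa_lc

open Cardinal Filter

/-- The finite binary sequence `s` is an initial segment of `x`. -/
def IsInit (s : List Bool) (x : ℕ → Bool) : Prop := ∀ i : Fin s.length, s.get i = x i

/-- `[σ]_∞`: the points having `σ n` as an initial segment for infinitely many `n`. -/
def limSet (σ : ℕ → List Bool) : Set (ℕ → Bool) := {x | {n | IsInit (σ n) x}.Infinite}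

/-- `x ≪ y`: for every `k`, `x (i ^ k) ≤ y i` for all large `i`. -/
def LL (x y : ℕ → ℕ) : Prop := ∀ k : ℕ, ∃ m : ℕ, ∀ i : ℕ, m ≤ i → x (i ^ k) ≤ y i

/-- The Yorioka ideal `I_f`. -/
def yorioka (f : ℕ → ℕ) : Set (Set (ℕ → Bool)) :=
  {A | ∃ σ : ℕ → List Bool, LL f (fun n => (σ n).length) ∧ A ⊆ limSet σ}

/-- Additivity: the least size of a subfamily of `I` whose union is not in `I`. -/
noncomputable def addI (I : Set (Set (ℕ → Bool))) : Cardinal :=
  sInf {c | ∃ F : Set (Set (ℕ → Bool)), F ⊆ I ∧ ⋃₀ F ∉ I ∧ #F = c}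

/-- Cofinality: the least size of a subfamily of `I` that is cofinal in `I` under inclusion. -/
noncomputable def cofI (I : Set (Set (ℕ → Bool))) : Cardinal :=
  sInf {c | ∃ F : Set (Set (ℕ → Bool)), F ⊆ I ∧ (∀ A ∈ I, ∃ B ∈ F, A ⊆ B) ∧ #F = c}

/-- The bounding number of a relational system: the least size of a family with no common bound. -/
noncomputable def bnum {X Y : Type} (r : X → Y → Prop) : Cardinal :=
  sInf {c | ∃ F : Set X, (¬ ∃ y, ∀ x ∈ F, r x y) ∧ #F = c}

/-- The dominating number of a relational system: the least size of a dominating family. -/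
noncomputable def dnum {X Y : Type} (r : X → Y → Prop) : Cardinal :=
  sInf {c | ∃ D : Set Y, (∀ x, ∃ y ∈ D, r x y) ∧ #D = c}

/-- eventual domination -/
def evle (x y : ℕ → ℕ) : Prop := ∀ᶠ n in atTop, x n ≤ y n

/-- slaloms of width `h` -/
def Slalom (h : ℕ → ℕ) : Type := {φ : ℕ → Finset ℕ // ∀ n, (φ n).card ≤ h n}

/-- localization on the product of the `b n` -/
def locB (b h : ℕ → ℕ) (x : {x : ℕ → ℕ // ∀ n, x n < b n}) (φ : Slalom h) : Prop :=
  ∀ᶠ n in atTop, x.1 n ∈ φ.1 n

end Pool.Agent.MP_9fd5aa_lc
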